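import Mathlib
import Pool.Agent.TH225.BR.G

set_option autoImplicit false

/-! Job 715: the core interpolation for functions dominated by product functions. -/

namespace Pool.Agent.TH225.BR

open MeasureTheory Set Complex Filter Topology
open scoped ENNReal RealInnerProductSpace
open Pool.Agent.H438R2.RZ (e Good ft Pl Bump TR)
open Pool.Agent.H789R2.FR (E)
open Pool.Agent.TH278

instance finD (n : ℕ) (B : ℝ) : IsFiniteMeasure ((volume : Measure (E n)).restrict (Cube n B)) :=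
  ⟨by rw [Measure.restrict_apply_univ]; exact vol_cube_lt n B⟩

/-- the integral of the product of the marginals -/
theorem int_P {k : ℕ} {B : ℝ} (hB : 0 < B) (H : E (k + 2) → ℝ) (hH : Measurable H)
    (hHD : ∫⁻ x in Cube (k + 2) B, ENNReal.ofReal (H x) ≤ 1)
    (Ms : ℝ × ℝ → ℝ) (Mi : Fin k → ℝ → ℝ) (hMsm : Measurable Ms) (hMim : ∀ i, Measurable (Mi i))
    (hMs0 : ∀ z, 0 ≤ Ms z) (hMi0 : ∀ i s, 0 ≤ Mi i s) (CM : ℝ) (hMsC : ∀ z, Ms z ≤ CM)
    (hMiC : ∀ i s, Mi i s ≤ CM)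
    (hMs : ∀ z, ENNReal.ofReal (Ms z) = ∫⁻ w : E k, (Cube (k + 2) B).indicator
      (fun x => ENNReal.ofReal (H x)) (inp z w))
    (hMi : ∀ i s, ENNReal.ofReal (Mi i s) = ∫⁻ y : E (k + 1), (Cube (k + 2) B).indicator
      (fun x => ENNReal.ofReal (H x)) (ins i.succ.succ s y))
    (ε : ℝ) (hε : 0 < ε) :
    ∫ x in Cube (k + 2) B, wt (fun z => Ms z + ε) (fun i s => Mi i s + ε) x ≤
      (1 + ε * (2 * B) ^ 2) * (1 + ε * (2 * B)) ^ k := by
  have hMsB := MsB Ms hMs0 CM hMsC ε hε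
  have hMiB := MiB Mi hMi0 CM hMiC ε hε
  have hm : Measurable (wt (fun z => Ms z + ε) (fun i s => Mi i s + ε) : E (k + 2) → ℝ) :=
    wt_meas (hMsm.add_const ε) fun i => (hMim i).add_const ε
  obtain ⟨m, M, hm0, hb⟩ := wt_BD hMsB hMiB
  have hint : Integrable (wt (fun z => Ms z + ε) (fun i s => Mi i s + ε) : E (k + 2) → ℝ)
      (volume.restrict (Cube (k + 2) B)) :=
    Integrable.of_bound hm.aestronglyMeasurable M (ae_of_all _ fun x => by
      rw [Real.norm_eq_abs, abs_of_pos (hm0.trans_le (hb x).1)]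
      exact (hb x).2)
  have hR0 : 0 ≤ (1 + ε * (2 * B) ^ 2) * (1 + ε * (2 * B)) ^ k := by positivity
  rw [← ENNReal.ofReal_le_ofReal_iff hR0, ofReal_integral_eq_lintegral_ofReal hint
    (ae_of_all _ fun x => (hm0.trans_le (hb x).1).le)]
  have h1 : ∀ x : E (k + 2), ENNReal.ofReal (wt (fun z => Ms z + ε) (fun i s => Mi i s + ε) x) =
      ENNReal.ofReal (Ms (x 0, x 1) + ε) * ∏ i : Fin k, ENNReal.ofReal (Mi i (x i.succ.succ) + ε) := by
    intro x
    unfold wt
    rw [ENNReal.ofReal_mul (by linarith [hMs0 (x 0, x 1)]),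
      ENNReal.ofReal_prod_of_nonneg fun i _ => by linarith [hMi0 i (x i.succ.succ)]]
  simp only [h1]
  rw [lint_prod B (fun z => ENNReal.ofReal (Ms z + ε)) (fun i s => ENNReal.ofReal (Mi i s + ε))
    (hMsm.add_const ε).ennreal_ofReal fun i => ((hMim i).add_const ε).ennreal_ofReal]
  have hind : Measurable ((Cube (k + 2) B).indicator fun x => ENNReal.ofReal (H x)) :=
    hH.ennreal_ofReal.indicator (cube_meas _ _)
  have h2 : ∫⁻ z in Icc (-B) B ×ˢ Icc (-B) B, ENNReal.ofReal (Ms z + ε) ≤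
      ENNReal.ofReal (1 + ε * (2 * B) ^ 2) := by
    have ha : ∀ z, ENNReal.ofReal (Ms z + ε) = ENNReal.ofReal (Ms z) + ENNReal.ofReal ε := fun z =>
      ENNReal.ofReal_add (hMs0 z) hε.le
    simp only [ha]
    rw [lintegral_add_left hMsm.ennreal_ofReal, setLIntegral_const,
      ENNReal.ofReal_add zero_le_one (by positivity), ENNReal.ofReal_one]
    refine add_le_add ?_ (le_of_eq ?_)
    · refine (setLIntegral_le_lintegral _ _).trans ?_
      simp only [hMs]
      rw [← lint_inp _ hind, lintegral_indicator (cube_meas _ _)]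
      exact hHD
    · rw [Measure.volume_eq_prod, Measure.prod_prod, Real.volume_Icc, ENNReal.ofReal_mul hε.le,
        ENNReal.ofReal_pow (by positivity)]
      have : B - -B = 2 * B := by ring
      rw [this]
      ring
  have h3 : ∀ i : Fin k, ∫⁻ s in Icc (-B) B, ENNReal.ofReal (Mi i s + ε) ≤
      ENNReal.ofReal (1 + ε * (2 * B)) := by
    intro i
    have ha : ∀ s, ENNReal.ofReal (Mi i s + ε) = ENNReal.ofReal (Mi i s) + ENNReal.ofReal ε :=
      fun s => ENNReal.ofReal_add (hMi0 i s) hε.le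
    simp only [ha]
    rw [lintegral_add_left (hMim i).ennreal_ofReal, setLIntegral_const,
      ENNReal.ofReal_add zero_le_one (by positivity), ENNReal.ofReal_one]
    refine add_le_add ?_ (le_of_eq ?_)
    · refine (setLIntegral_le_lintegral _ _).trans ?_
      simp only [hMi]
      rw [← lint_ins i.succ.succ _ hind, lintegral_indicator (cube_meas _ _)]
      exact hHD
    · rw [Real.volume_Icc, ENNReal.ofReal_mul hε.le]
      have : B - -B = 2 * B := by ring
      rw [this]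
  calc _ ≤ ENNReal.ofReal (1 + ε * (2 * B) ^ 2) * ∏ _i : Fin k, ENNReal.ofReal (1 + ε * (2 * B)) :=
        mul_le_mul' h2 (Finset.prod_le_prod' fun i _ => h3 i)
    _ = _ := by
        rw [Finset.prod_const, Finset.card_univ, Fintype.card_fin,
          ENNReal.ofReal_mul (by positivity), ENNReal.ofReal_pow (by positivity)]

/-- conjugate phase -/
noncomputable def cph (z : ℂ) : ℂ := (starRingEnd ℂ) z / ((‖z‖ : ℝ) : ℂ)

theorem cph_norm (z : ℂ) : ‖cph z‖ ≤ 1 := by
  unfold cph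
  rw [norm_div, Complex.norm_real, RCLike.norm_conj, norm_norm]
  exact div_self_le_one _

theorem cph_mul (z : ℂ) : z * cph z = ((‖z‖ : ℝ) : ℂ) := by
  unfold cph
  by_cases hz : z = 0
  · simp [hz]
  · have h : ((‖z‖ : ℝ) : ℂ) ≠ 0 := by
      simpa using hz
    field_simp
    rw [Complex.mul_conj, Complex.normSq_eq_norm_sq]
    push_cast
    ring

theorem cph_meas : Measurable cph := by
  unfold cph
  exact (Complex.continuous_conj.measurable).div (Complex.measurable_ofReal.comp measurable_norm)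

theorem exp_phase (r : ℝ) : ‖Complex.exp (((r : ℝ) : ℂ) * I)‖ = 1 :=
  Complex.norm_exp_ofReal_mul_I r

end Pool.Agent.TH225.BR

namespace Pool.Agent.TH278

open MeasureTheory Set Complex Filter Topology
open scoped ENNReal RealInnerProductSpace
open Pool.Agent.H438R2.RZ (e Good ft Pl Bump TR)
open Pool.Agent.H789R2.FR (E)
open Pool.Agent.TH225.BR

theorem dom_core (k : ℕ) (ψ : ℝ → ℝ) (hψ : Bump ψ) (L A₀ A₁ A₂ : ℝ) (hL : 20 ≤ L)
    (hVB : VB k ψ L A₀ A₁ A₂) (τ p : ℝ) (hτ0 : 0 ≤ τ) (hτ1 : τ ≤ 1) (hp : 0 < p)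
    (hpτ : 1 / p = 1 / 2 + τ / (2 * ((k : ℝ) + 2))) :
    DomCore k ψ L p (A₀ ^ (1 - τ) * A₁ ^ ((k : ℝ) * (τ / ((k : ℝ) + 2))) *
      A₂ ^ (2 * τ / ((k : ℝ) + 2))) := by
  intro B hB g φ hg hφ m M hm hgb hφb hg1 hφ1 u hu hu1 huD
  have hgB : BD g := ⟨m, M, hm, hgb⟩
  have hφB : ∀ i, BD (φ i) := fun i => ⟨m, M, hm, hφb i⟩
  have hg0 : ∀ z, 0 < g z := hgB.pos
  have hφ0 : ∀ i s, 0 < φ i s := fun i => (hφB i).pos
  set A : ℝ := A₀ ^ (1 - τ) * A₁ ^ ((k : ℝ) * (τ / ((k : ℝ) + 2))) *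
      A₂ ^ (2 * τ / ((k : ℝ) + 2)) with hAdef
  have hA0 : 0 ≤ A := by
    have h0 := hVB.pos₀
    have h1 := hVB.pos₁
    have h2 := hVB.pos₂
    positivity
  have hwm : Measurable (wt g φ : E (k + 2) → ℝ) := wt_meas hg hφ
  obtain ⟨mw, Mw, hmw, hwb⟩ := wt_BD hgB hφB
  have hw0 : ∀ y : E (k + 2), 0 ≤ wt g φ y := fun y => hmw.le.trans (hwb y).1
  let f : E (k + 2) → ℂ := fun y => u y * ((wt g φ y : ℝ) : ℂ)
  have hfm : Measurable f := hu.mul hwm.complex_ofReal
  have hfb : ∀ y, ‖f y‖ ≤ Mw := fun y => (norm_uF (hu1 y) (hw0 y)).trans (hwb y).2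
  have hfD : ∀ y, f y ≠ 0 → y ∈ Cube (k + 2) B := fun y hy => huD y fun h => hy (by
    simp only [f, h, zero_mul])
  have hfi : Integrable f := int_of f hfm Mw hfb hfD
  let F : E (k + 2) → ℂ := TR (k + 2) (ML ψ L) f
  have hFc : Continuous F := TR_cont _ hψ L f hfi
  obtain ⟨CF, hCF0, hCF⟩ := TR_bound _ hψ L f hfi
  let G : E (k + 2) → ℝ := fun x => ‖F x‖
  have hGc : Continuous G := hFc.norm
  have hG0 : ∀ x, 0 ≤ G x := fun x => norm_nonneg _
  obtain ⟨Z, hZd⟩ : ∃ Z, Z = ∫ x in Cube (k + 2) B, G x ^ p := ⟨_, rfl⟩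
  have hGpm : Measurable fun x => G x ^ p := hGc.measurable.pow_const p
  have hGp0 : ∀ x, 0 ≤ G x ^ p := fun x => Real.rpow_nonneg (hG0 x) _
  have hGpb : ∀ x, G x ^ p ≤ CF ^ p := fun x => Real.rpow_le_rpow (hG0 x) (hCF x) hp.le
  have hGpi : Integrable (fun x => G x ^ p) (volume.restrict (Cube (k + 2) B)) :=
    Integrable.of_bound hGpm.aestronglyMeasurable (CF ^ p) (ae_of_all _ fun x => by
      rw [Real.norm_eq_abs, abs_of_nonneg (hGp0 x)]
      exact hGpb x)
  have hZ0 : 0 ≤ Z := by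
    rw [hZd]
    exact integral_nonneg hGp0
  have hlin : ∫⁻ x in Cube (k + 2) B, ‖F x‖ₑ ^ p = ENNReal.ofReal Z := by
    rw [hZd, ofReal_integral_eq_lintegral_ofReal hGpi (ae_of_all _ hGp0)]
    refine lintegral_congr fun x => ?_
    rw [← ofReal_norm, ENNReal.ofReal_rpow_of_nonneg (norm_nonneg _) hp.le]
  change (∫⁻ x in Cube (k + 2) B, ‖F x‖ₑ ^ p) ^ (1 / p) ≤ ENNReal.ofReal A
  rw [hlin, ENNReal.ofReal_rpow_of_nonneg hZ0 (by positivity)]
  refine ENNReal.ofReal_le_ofReal ?_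
  rcases hZ0.eq_or_lt with hZ | hZ
  · rw [← hZ, Real.zero_rpow (by positivity)]
    exact hA0
  -- the density
  obtain ⟨H, hHd⟩ : ∃ H : E (k + 2) → ℝ, H = fun x => G x ^ p / Z := ⟨_, rfl⟩
  have hHm : Measurable H := by rw [hHd]; exact hGpm.div_const Z
  have hH0 : ∀ x, 0 ≤ H x := fun x => by rw [hHd]; exact div_nonneg (hGp0 x) hZ0
  have hHC : ∀ x, H x ≤ CF ^ p / Z := fun x => by
    rw [hHd]
    exact div_le_div_of_nonneg_right (hGpb x) hZ0
  have hCH0 : 0 ≤ CF ^ p / Z := div_nonneg (Real.rpow_nonneg hCF0 _) hZ0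
  have hHD : ∫⁻ x in Cube (k + 2) B, ENNReal.ofReal (H x) ≤ 1 := by
    rw [← ofReal_integral_eq_lintegral_ofReal (by rw [hHd]; exact hGpi.div_const Z)
      (ae_of_all _ hH0)]
    have : ∫ x in Cube (k + 2) B, H x = 1 := by
      rw [hHd, integral_div, ← hZd]
      exact div_self hZ.ne'
    rw [this, ENNReal.ofReal_one]
  -- marginals
  have hindm : Measurable ((Cube (k + 2) B).indicator fun x => ENNReal.ofReal (H x)) :=
    hHm.ennreal_ofReal.indicator (cube_meas _ _)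
  have hindC : ∀ x, (Cube (k + 2) B).indicator (fun x => ENNReal.ofReal (H x)) x ≤
      ENNReal.ofReal (CF ^ p / Z) := by
    intro x
    refine (indicator_le_self _ _ _).trans ?_
    exact ENNReal.ofReal_le_ofReal (hHC x)
  have hmem : ∀ x, (Cube (k + 2) B).indicator (fun x => ENNReal.ofReal (H x)) x ≠ 0 →
      x ∈ Cube (k + 2) B := by
    intro x hx
    by_contra h
    exact hx (indicator_of_notMem h _)
  obtain ⟨Ms, hMsm, hMs0, ⟨Cs, hMsC⟩, hMs⟩ := marg (fun (z : ℝ × ℝ) (w : E k) => inp z w)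
    inp_meas _ hindm _ hindC (Cube k B) (cube_meas _ _) (vol_cube_lt _ _)
    (fun z w h => ((mem_cube_inp _ _ _).1 (hmem _ h)).2)
  have hMi' := fun i : Fin k => marg (fun (s : ℝ) (y : E (k + 1)) => (ins i.succ.succ s y : E (k + 2)))
    (ins_meas (m := k + 1) i.succ.succ) _ hindm _ hindC (Cube (k + 1) B) (cube_meas _ _)
    (vol_cube_lt _ _) (fun z w h => ((mem_cube_ins _ _ _ _).1 (hmem _ h)).2)
  choose Mi hMim hMi0 hMiC' hMi using hMi'
  choose Ci hMiC using hMiC'
  let CM : ℝ := |Cs| + ∑ i, |Ci i|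
  have hCs : ∀ z, Ms z ≤ CM := fun z => by
    have h1 := hMsC z
    have h2 : 0 ≤ ∑ i, |Ci i| := Finset.sum_nonneg fun i _ => abs_nonneg _
    have h3 := le_abs_self Cs
    simp only [CM]
    linarith
  have hCi : ∀ i s, Mi i s ≤ CM := fun i s => by
    have h1 := hMiC i s
    have h2 : |Ci i| ≤ ∑ i, |Ci i| :=
      Finset.single_le_sum (fun i _ => abs_nonneg (Ci i)) (Finset.mem_univ i)
    have h3 := le_abs_self (Ci i)
    have h4 := abs_nonneg Cs
    simp only [CM]
    linarith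
  set t : ℝ := τ / (2 * ((k : ℝ) + 2)) with ht
  have ht0 : 0 ≤ t := by positivity
  obtain ⟨CK, hCK0, hCK⟩ := Kc_bound (k + 2) hψ L
  -- the estimate for every ε
  have key : ∀ ε : ℝ, 0 < ε → Z ^ (1 / p) ≤
      A * ((1 + ε * (2 * B) ^ 2) * (1 + ε * (2 * B)) ^ k) ^ t := by
    intro ε hε
    have hMsB := MsB Ms hMs0 CM hCs ε hε
    have hMiB := MiB Mi hMi0 CM hCi ε hε
    have hPm : Measurable (wt (fun z => Ms z + ε) (fun i s => Mi i s + ε) : E (k + 2) → ℝ) :=
      wt_meas (hMsm.add_const ε) fun i => (hMim i).add_const ε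
    have hPB := wt_BD (k := k) hMsB hMiB
    have hPpos := fun x : E (k + 2) => hPB.pos x
    have hgeo := Pool.Agent.TH278.geo_interp (volume.restrict (Cube (k + 2) B))
      (volume.restrict (Cube (k + 2) B))
      (fun x y => Kc (k + 2) ψ L (x - y) * ((H x ^ (1 / 2 : ℝ) : ℝ) : ℂ))
      (by
        have h1 : Measurable fun q : E (k + 2) × E (k + 2) => Kc (k + 2) ψ L (q.1 - q.2) :=
          ((Kc_cont (k + 2) hψ L).comp (continuous_fst.sub continuous_snd)).measurable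
        exact h1.mul ((hHm.pow_const (1 / 2 : ℝ)).complex_ofReal.comp measurable_fst))
      ⟨CK * (CF ^ p / Z) ^ (1 / 2 : ℝ), fun x y => by
        rw [norm_mul, Complex.norm_real, Real.norm_eq_abs,
          abs_of_nonneg (Real.rpow_nonneg (hH0 x) _)]
        exact mul_le_mul (hCK _) (Real.rpow_le_rpow (hH0 x) (hHC x) (by norm_num))
          (Real.rpow_nonneg (hH0 x) _) hCK0⟩
      (Finset.univ : Finset (Option (Option (Fin k)))) (θv k τ)
      (fun c _ => by
        rcases c with _ | _ | i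
        · simp only [θv]; linarith
        · simp only [θv]; positivity
        · simp only [θv]; positivity)
      (sumθ k τ) (Fv p g φ) (Rv (fun z => Ms z + ε) (fun i s => Mi i s + ε))
      (fun c _ => Fv_meas p hg hφ c)
      (fun c _ => Rv_meas (hMsm.add_const ε) (fun i => (hMim i).add_const ε) c)
      (fun c _ => Fv_BD p hgB hφB c) (fun c _ => Rv_BD hMsB hMiB c)
      (Av k A₀ A₁ A₂) (fun c _ => by
        rcases c with _ | _ | i
        · exact hVB.pos₀.le
        · exact hVB.pos₂.le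
        · exact hVB.pos₁.le)
      (fun u => Measurable u ∧ ∀ y, ‖u y‖ ≤ 1) (fun u hu => hu)
      (fun u hu c _ t => by
        refine ⟨?_, fun y => ?_⟩
        · refine hu.1.mul ?_
          have h1 : Measurable fun y => t * Real.log (Fv p g φ c y) :=
            (Real.measurable_log.comp (Fv_meas p hg hφ c)).const_mul t
          exact Complex.measurable_exp.comp (h1.complex_ofReal.mul_const I)
        · rw [norm_mul, exp_phase, mul_one]
          exact hu.2 y)
      (fun c _ u v hu hv hv1 => vertex hB g φ hg hφ hgB hφB hg1 hφ1 hψ L A₀ A₁ A₂ hVB H hHm hH0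
        (CF ^ p / Z) hHC hHD Ms Mi hMsm hMim hMs0 hMi0 CM hCs hCi hMs hMi ε hε c u v hu.1 hu.2
        hv hv1)
      u (fun x => cph (F x)) ⟨hu, hu1⟩ (cph_meas.comp hFc.measurable) (fun x => cph_norm _)
    simp only [prodF hp hpτ hg0 hφ0, prodR hMsB.pos (fun i => (hMiB i).pos),
      prodA hVB.pos₁] at hgeo
    rw [← hAdef, ← ht] at hgeo
    have hint : ∫ x in Cube (k + 2) B, ∫ y in Cube (k + 2) B,
        Kc (k + 2) ψ L (x - y) * ((H x ^ (1 / 2 : ℝ) : ℝ) : ℂ) * (u y * ((wt g φ y : ℝ) : ℂ)) *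
        (cph (F x) * ((wt (fun z => Ms z + ε) (fun i s => Mi i s + ε) x ^ (-t) : ℝ) : ℂ)) =
        ((∫ x in Cube (k + 2) B, G x * (G x ^ p / ∫ x in Cube (k + 2) B, G x ^ p) ^ (1 / 2 : ℝ) *
          wt (fun z => Ms z + ε) (fun i s => Mi i s + ε) x ^ (-t) : ℝ) : ℂ) := by
      rw [← integral_complex_ofReal]
      refine integral_congr_ae (ae_of_all _ fun x => ?_)
      simp only
      have h1 : ∀ y, Kc (k + 2) ψ L (x - y) * ((H x ^ (1 / 2 : ℝ) : ℝ) : ℂ) *
          (u y * ((wt g φ y : ℝ) : ℂ)) *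
          (cph (F x) * ((wt (fun z => Ms z + ε) (fun i s => Mi i s + ε) x ^ (-t) : ℝ) : ℂ)) =
          (Kc (k + 2) ψ L (x - y) * f y) * (((H x ^ (1 / 2 : ℝ) : ℝ) : ℂ) * (cph (F x) *
            ((wt (fun z => Ms z + ε) (fun i s => Mi i s + ε) x ^ (-t) : ℝ) : ℂ))) := by
        intro y
        simp only [f]
        ring
      simp only [h1]
      rw [integral_mul_const]
      have h2 : ∫ y in Cube (k + 2) B, Kc (k + 2) ψ L (x - y) * f y = F x := by
        rw [setIntegral_eq_integral_of_forall_compl_eq_zero]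
        · exact (TR_eq (k + 2) hψ L f hfi x).symm
        · intro y hy
          have : f y = 0 := by
            by_contra h
            exact hy (hfD y h)
          rw [this, mul_zero]
      rw [h2, ← hZd]
      have h3 : H x = G x ^ p / Z := by rw [hHd]
      rw [← h3]
      push_cast
      rw [← cph_mul (F x)]
      ring
    rw [hint, Complex.norm_real] at hgeo
    have hfin := (le_abs_self _).trans ((Real.norm_eq_abs _).symm.le.trans hgeo)
    have hFI := Pool.Agent.TH278.FI (volume.restrict (Cube (k + 2) B)) G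
      (wt (fun z => Ms z + ε) (fun i s => Mi i s + ε)) hGc.measurable hG0 ⟨CF, hCF⟩ hPm hPB
      p (1 / 2) t A ((1 + ε * (2 * B) ^ 2) * (1 + ε * (2 * B)) ^ k) hp (by norm_num) ht0
      (by rw [hpτ]; ring) hA0
      (int_P hB H hHm hHD Ms Mi hMsm hMim hMs0 hMi0 CM hCs hCi hMs hMi ε hε)
      (by rw [← hZd]; exact hZ) hfin
    rw [← hZd] at hFI
    exact hFI
  -- the limit
  have hlim : Tendsto (fun ε : ℝ => A * ((1 + ε * (2 * B) ^ 2) * (1 + ε * (2 * B)) ^ k) ^ t)
      (𝓝[>] 0) (𝓝 A) := by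
    have hc : ContinuousAt (fun ε : ℝ =>
        A * ((1 + ε * (2 * B) ^ 2) * (1 + ε * (2 * B)) ^ k) ^ t) 0 := by
      have h1 : ContinuousAt (fun ε : ℝ => (1 + ε * (2 * B) ^ 2) * (1 + ε * (2 * B)) ^ k) 0 := by
        fun_prop
      exact continuousAt_const.mul (h1.rpow_const (Or.inl (by norm_num)))
    have h2 : Tendsto (fun ε : ℝ => A * ((1 + ε * (2 * B) ^ 2) * (1 + ε * (2 * B)) ^ k) ^ t)
        (𝓝[>] 0) (𝓝 (A * ((1 + 0 * (2 * B) ^ 2) * (1 + 0 * (2 * B)) ^ k) ^ t)) :=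
      hc.tendsto.mono_left nhdsWithin_le_nhds
    simpa using h2
  refine ge_of_tendsto hlim ?_
  filter_upwards [self_mem_nhdsWithin] with ε hε
  exact key ε hε

end Pool.Agent.TH278
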